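import Pool.Agent.Helper20.Mono.Goals

/-!
Packet F2 of MP_aa7fc1_ag: killed classes do not contribute.
-/

namespace Mono

open Finset

variable {n : ℕ}

theorem Esum_zero (Φ : Fan n) (σ : Finset (Fin n → ℤ)) (w : Fin n → ℝ) : Φ.Esum σ w 0 = 0 := by
  simp [Fan.Esum]

theorem Esum_add (Φ : Fan n) (σ : Finset (Fin n → ℤ)) (w : Fin n → ℝ)
    (y z : MvPolynomial (Fin n → ℤ) ℝ) :
    Φ.Esum σ w (y + z) = Φ.Esum σ w y + Φ.Esum σ w z := by
  simp only [Fan.Esum, map_add, add_div, Finset.sum_add_distrib]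

theorem Esum_sum (Φ : Fan n) (σ : Finset (Fin n → ℤ)) (w : Fin n → ℝ) {ι : Type*} (s : Finset ι)
    (f : ι → MvPolynomial (Fin n → ℤ) ℝ) (h : ∀ i ∈ s, Φ.Esum σ w (f i) = 0) :
    Φ.Esum σ w (∑ i ∈ s, f i) = 0 := by
  classical
  induction s using Finset.induction_on with
  | empty => simp [Esum_zero]
  | insert a s ha ih =>
    rw [Finset.sum_insert ha, Esum_add, h a (Finset.mem_insert_self _ _),
      ih fun i hi => h i (Finset.mem_insert_of_mem hi), add_zero]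

/-- Homogeneous components of `M * y` with `M` homogeneous. -/
theorem hc_mul {α : Type*} {M y : MvPolynomial α ℝ} {m : ℕ} (hM : M.IsHomogeneous m) (q : ℕ) :
    MvPolynomial.homogeneousComponent q (M * y) =
      ∑ i ∈ range (y.totalDegree + 1),
        if q = m + i then M * MvPolynomial.homogeneousComponent i y else 0 := by
  conv_lhs => rw [← MvPolynomial.sum_homogeneousComponent y]
  rw [Finset.mul_sum, map_sum]
  refine Finset.sum_congr rfl fun i _ => ?_
  rw [MvPolynomial.homogeneousComponent_of_mem]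
  exact (MvPolynomial.mem_homogeneousSubmodule _ _).2
    (hM.mul (MvPolynomial.homogeneousComponent_isHomogeneous i y))

/-- An alternating sum over the subsets of `A ∪ D` factors. -/
theorem alt_factor {α R : Type*} [DecidableEq α] [CommRing R] (F : Finset α → R) (g : α → R)
    (D A : Finset α) (hdis : Disjoint A D)
    (hF : ∀ p ∈ A, ∀ ρ ⊆ A ∪ D, p ∉ ρ → F (insert p ρ) = - F ρ) :
    ∑ ρ ∈ (A ∪ D).powerset, F ρ * ∏ t ∈ (A ∪ D) \ ρ, g t =
      (∏ p ∈ A, (g p - 1)) * ∑ ρ ∈ D.powerset, F ρ * ∏ t ∈ D \ ρ, g t := by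
  induction A using Finset.induction_on with
  | empty => simp
  | insert p A hp ih =>
    have hpD : p ∉ D := Finset.disjoint_left.1 hdis (Finset.mem_insert_self _ _)
    have hpE : p ∉ A ∪ D := by simp [hp, hpD]
    rw [Finset.insert_union, Finset.sum_powerset_insert hpE, Finset.prod_insert hp, mul_assoc,
      ← ih (hdis.mono_left (Finset.subset_insert _ _)) (fun q hq ρ hρ hqρ =>
        hF q (Finset.mem_insert_of_mem hq) ρ (hρ.trans (Finset.union_subset_union_left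
          (Finset.subset_insert _ _))) hqρ), Finset.mul_sum, ← Finset.sum_add_distrib]
    refine Finset.sum_congr rfl fun ρ hρ => ?_
    rw [Finset.mem_powerset] at hρ
    have hpρ : p ∉ ρ := fun h => hpE (hρ h)
    have e1 : insert p (A ∪ D) \ ρ = insert p ((A ∪ D) \ ρ) := Finset.insert_sdiff_of_notMem _ hpρ
    have e2 : insert p (A ∪ D) \ insert p ρ = (A ∪ D) \ ρ := by
      ext x
      simp only [Finset.mem_sdiff, Finset.mem_insert]
      constructor
      · rintro ⟨h1 | h1, h2⟩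
        · exact absurd (Or.inl h1) h2
        · exact ⟨h1, fun h => h2 (Or.inr h)⟩
      · rintro ⟨h1, h2⟩
        refine ⟨Or.inr h1, ?_⟩
        rintro (h3 | h3)
        · exact hpE (h3 ▸ h1)
        · exact h2 h3
    rw [e1, e2, Finset.prod_insert (by simp [hpE]), hF p (Finset.mem_insert_self _ _) ρ
      (hρ.trans (by rw [Finset.insert_union]; exact Finset.subset_insert _ _)) hpρ]
    ring

theorem X_dvd_tgeo (p : Fin n → ℤ) :
    (MvPolynomial.X p : MvPolynomial (Fin n → ℤ) ℝ) ∣ tgeo (n := n) 1 (MvPolynomial.X p) - 1 := by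
  rw [tgeo, Finset.sum_range_succ']
  simp only [pow_zero, inv_one, one_pow, mul_one, map_one, add_sub_cancel_right]
  refine Finset.dvd_sum fun k _ => ?_
  exact Dvd.dvd.mul_left (dvd_pow_self _ (Nat.succ_ne_zero k)) _

theorem mem_apex {Z σ B : Finset (Fin n → ℤ)} {p : Fin n → ℤ} :
    p ∈ apex Z σ B ↔ (p ∈ σ ∧ p ∉ Z) ∧
      ∃ i, p i = 1 ∧ (∀ t ∈ σ, t ≠ p → t i = 0) ∧ ∀ u ∈ B, u i = 0 := by
  simp [apex]

theorem apex_coeff {Φ : Fan n} {Z σ B : Finset (Fin n → ℤ)} {c : (Fin n → ℤ) → ℝ}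
    (hc : Φ.IsClass σ c) {p : Fin n → ℤ} (hp : p ∈ apex Z σ B) : c p = 1 := by
  obtain ⟨⟨h1, -⟩, i, hi1, hi2, -⟩ := mem_apex.1 hp
  have h := congrFun hc.2.2 i
  rw [Finset.sum_apply, Finset.sum_eq_single p] at h
  · simp [hi1] at h
    exact h.symm
  · intro t ht htp
    simp [hi2 t ht htp]
  · exact fun h => absurd h1 h

theorem inner_dvd (hV : VolHeight) {Φ : Fan n} {Z σ B : Finset (Fin n → ℤ)}
    {c : (Fin n → ℤ) → ℝ} (hc : Φ.IsClass σ c) :
    (∏ p ∈ apex Z σ B, (MvPolynomial.X p : MvPolynomial (Fin n → ℤ) ℝ)) ∣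
      ∑ ρ ∈ (σ \ Z).powerset, MvPolynomial.C ((-1) ^ (ρ.card + B.card) * (vol (ρ ∪ B) : ℝ) ^ 2) *
        ∏ t ∈ σ \ ρ, tgeo (n := n) (c t) (MvPolynomial.X t) := by
  classical
  set A := apex Z σ B with hA
  set D := (σ \ Z) \ A with hD
  set g : (Fin n → ℤ) → MvPolynomial (Fin n → ℤ) ℝ := fun t => tgeo (n := n) (c t) (MvPolynomial.X t)
    with hg
  set F : Finset (Fin n → ℤ) → MvPolynomial (Fin n → ℤ) ℝ := fun ρ =>
    MvPolynomial.C ((-1) ^ (ρ.card + B.card) * (vol (ρ ∪ B) : ℝ) ^ 2) with hFdef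
  have hAs : A ⊆ σ \ Z := Finset.filter_subset _ _
  have hE : σ \ Z = A ∪ D := by
    rw [hD, Finset.union_sdiff_of_subset hAs]
  have hsub : σ \ Z ⊆ σ := Finset.sdiff_subset
  have h1 : ∑ ρ ∈ (σ \ Z).powerset, F ρ * ∏ t ∈ σ \ ρ, g t =
      (∑ ρ ∈ (A ∪ D).powerset, F ρ * ∏ t ∈ (A ∪ D) \ ρ, g t) * ∏ t ∈ σ \ (σ \ Z), g t := by
    rw [Finset.sum_mul, ← hE]
    refine Finset.sum_congr rfl fun ρ hρ => ?_
    rw [Finset.mem_powerset] at hρ
    rw [mul_assoc]
    congr 1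
    rw [← Finset.prod_union]
    · congr 1
      ext x
      simp only [Finset.mem_sdiff, Finset.mem_union]
      constructor
      · rintro ⟨a, b⟩
        by_cases hx : x ∈ Z
        · right; exact ⟨a, fun h => h.2 hx⟩
        · left; exact ⟨⟨a, hx⟩, b⟩
      · rintro (⟨⟨a, b⟩, d⟩ | ⟨a, b⟩)
        · exact ⟨a, d⟩
        · refine ⟨a, fun h => b ?_⟩
          have := hρ h
          rwa [Finset.mem_sdiff] at this
    · rw [Finset.disjoint_left]
      intro x hx hx2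
      rw [Finset.mem_sdiff] at hx hx2
      exact hx2.2 hx.1
  have hflip : ∀ p ∈ A, ∀ ρ ⊆ A ∪ D, p ∉ ρ → F (insert p ρ) = - F ρ := by
    intro p hp ρ hρ hpρ
    obtain ⟨⟨q1, q2⟩, i, hi1, hi2, hi3⟩ := mem_apex.1 hp
    have hv : vol (insert p ρ ∪ B) = vol (ρ ∪ B) := by
      rw [Finset.insert_union]
      refine hV n _ p i (fun u hu => ?_) hi1
      rcases Finset.mem_union.1 hu with h | h
      · rw [← hE] at hρ
        exact hi2 u (hsub (hρ h)) (fun e => hpρ (e ▸ h))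
      · exact hi3 u h
    simp only [hFdef]
    rw [hv, Finset.card_insert_of_notMem hpρ, ← map_neg]
    congr 1
    ring
  have hdis : Disjoint A D := Finset.disjoint_sdiff
  show (∏ p ∈ A, (MvPolynomial.X p : MvPolynomial (Fin n → ℤ) ℝ)) ∣
    ∑ ρ ∈ (σ \ Z).powerset, F ρ * ∏ t ∈ σ \ ρ, g t
  rw [h1, alt_factor F g D A hdis hflip, mul_assoc]
  refine Dvd.dvd.mul_right ?_ _
  refine Finset.prod_dvd_prod_of_dvd _ _ fun p hp => ?_
  simp only [hg]
  rw [apex_coeff hc hp]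
  exact X_dvd_tgeo p

theorem killZero (h : VolHeight) : KillZero := by
  intro n Φ Z σ c hc hkill η hη s
  classical
  obtain ⟨F, hF, hσF⟩ := hc.1
  have hσn : σ.card ≤ n := (Finset.card_le_card hσF).trans (Φ.mx_card F hF).le
  have hY : Φ.Yhat Z σ c s = ∑ B ∈ ((Φ.vert \ Z) \ σ).powerset,
      ((∏ u ∈ B, MvPolynomial.X u) * ∑ ρ ∈ (σ \ Z).powerset,
        MvPolynomial.C ((-1) ^ (ρ.card + B.card) * (vol (ρ ∪ B) : ℝ) ^ 2) *
        ∏ t ∈ σ \ ρ, tgeo (n := n) (c t) (MvPolynomial.X t)) *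
      tgeo (s + ∑ t ∈ σ \ Z, c t) (∑ u ∈ Φ.vert \ Z, MvPolynomial.X u) := by
    rw [Fan.Yhat, Fan.Y0, mul_comm, Finset.sum_mul]
  rw [hY, map_sum]
  refine Esum_sum Φ σ η _ _ fun B hB => ?_
  rw [Finset.mem_powerset] at hB
  have hBσ : Disjoint B σ := Finset.disjoint_of_subset_left hB Finset.sdiff_disjoint
  obtain ⟨y, hy⟩ := inner_dvd h (Z := Z) (B := B) hc
  rw [hy]
  set T := tgeo (n := n) (s + ∑ t ∈ σ \ Z, c t) (∑ u ∈ Φ.vert \ Z, MvPolynomial.X u) with hT
  have e1 : (∏ u ∈ B, (MvPolynomial.X u : MvPolynomial (Fin n → ℤ) ℝ)) *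
      ((∏ p ∈ apex Z σ B, MvPolynomial.X p) * y) * T =
      ((∏ u ∈ B, MvPolynomial.X u) * ∏ p ∈ apex Z σ B, MvPolynomial.X p) * (y * T) := by ring
  have hM : ((∏ u ∈ B, (MvPolynomial.X u : MvPolynomial (Fin n → ℤ) ℝ)) *
      ∏ p ∈ apex Z σ B, MvPolynomial.X p).IsHomogeneous (B.card + (apex Z σ B).card) := by
    refine MvPolynomial.IsHomogeneous.mul ?_ ?_
    · have := MvPolynomial.IsHomogeneous.prod B
        (fun u => (MvPolynomial.X u : MvPolynomial (Fin n → ℤ) ℝ)) (fun _ => 1)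
        (fun u _ => MvPolynomial.isHomogeneous_X _ _)
      simpa using this
    · have := MvPolynomial.IsHomogeneous.prod (apex Z σ B)
        (fun u => (MvPolynomial.X u : MvPolynomial (Fin n → ℤ) ℝ)) (fun _ => 1)
        (fun u _ => MvPolynomial.isHomogeneous_X _ _)
      simpa using this
  rw [e1, hc_mul hM]
  refine Esum_sum Φ σ η _ _ fun i _ => ?_
  split_ifs with hi
  · exact hkill η hη B hBσ i _ (MvPolynomial.homogeneousComponent_isHomogeneous i (y * T))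
      (by omega)
  · exact Esum_zero Φ σ η

end Mono
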